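import Pool.Agent.Run7.h23.Gd.Main
import Pool.Agent.Run7.h23.Gn.Idl
import Pool.Agent.N783.PF.Jac

/-!
# The 2-primary parts of the Tate-Shafarevich groups of all inert twists of Jacobians over all 2-extensions

Let `F` be a number field, `g ≥ 1`, `T` a finite set of primes of `F`, and `K₀` any finite extension of `F`.

Theorem. There are a finite set `S` of primes of `F` (not over `2`, not in `T`, completely split in `K₀`)
and `c > 0` such that for all large `B` at least `c` times the number of ALL monic polynomials
`f` of degree `2 g + 1` over `𝓞 F` without term of degree `2 g` and of height at most `B` are irreducible and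
minimal and have the following property. Let `K / F` be ANY finite Galois extension of 2-power degree in which
* the primes over `2`, the primes in `S` and the real places of `F` split completely,
* every ramified prime `𝔭` is in `T` or `f` is irreducible modulo `𝔭`,

and let `D ≠ 0` be ANY element of `𝓞 F` which
* is a square in the completions at the primes over `2` and positive in all real embeddings,
* is divisible only by primes `𝔭` which are in `T` or modulo which `f` is irreducible.

Then the Jacobian `J_D` of `D y ^ 2 = f(x)` (the quadratic twist of the Jacobian `J` of `y ^ 2 = f(x)`, an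
abelian variety of dimension `g`) satisfies `J_D(K) = 2 J_D(K)`, `J_D(K)[2] = 0` and `Ш(J_D / K)[2 ^ ∞] = 0`.

For `F = K = ℚ`: for every `g` and a positive proportion of all odd hyperelliptic curves the 2-primary part
of `Ш(J_D / ℚ)` is zero for ALL `D > 0`, `D = 1` modulo `8`, whose prime divisors are primes modulo which `f` is
irreducible (any number of them). `Ш(J_D / K)` is the Tate-Shafarevich group of the Weil restriction of `J_D`
to `ℚ`, an abelian variety over `ℚ` of dimension `g [K : ℚ]` (not used). There is no bound on the degree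
of `K`, its Galois group (any 2-group), the number of ramified primes, or on `D`, and `c` and `S` do not depend on `K` and
`D`. Both classes are infinite for all these `f` (Chebotarev, not used).

The proof. We use the project PF of helper783 (all its lemmas on lattices, the reciprocity law, the
linear algebra and the estimates of the number of bad `f` are in the starting tree). For `f` in the family
and not bad there is a subset `J` of `S` such that a group of classes over `L = F(θ)` is trivial; it does not
depend on `K` and `D`. The polynomial of the theorem is the twist of `f` by the product of `J`. A class of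
the 2-Selmer group of `J_D` over `K` gives an element of `K(θ)`; the group of all elements of `K(θ)` with
the local conditions is stable under `Gal(K / F)`, so by Galois descent for 2-extensions and odd degree (plan of
helper874, over `k(t)`) it is enough to show that an element of `L` in it is a square. Here:
* only the primes of `K(θ)` are used at which `f'(θ)` is a unit, the prime of `F` below is unramified and prime to `D`;
  they are unramified over `L`; for the ramified primes and the prime divisors of `D` there is only one prime of `L` over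
  it and its residue degree is odd, so the valuation is even because the norm is a square;
* modulo a prime in `S` the polynomial `f` is `x` times an irreducible polynomial of even degree `2 g`, so the units of
  `F` are local squares at the second prime of `L` and the twist by `D` changes nothing there; at the primes over `2` and the
  real places it changes nothing because `D` is a local square.

The lemmas are in `Pool/Agent/Run7/h23/Gn` and `Pool/Agent/Run7/h23/Gd` (helper23).
-/

set_option autoImplicit false
set_option linter.all false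

namespace Pool.Agent.Results.MP_a43263_nt.AllTwistsAllTwoExtensions

open Filter NumberField IsDedekindDomain Polynomial
open Pool.Agent.N874.Jac (UniquelyTwoDivisible ShaTwoTrivialReal)
open scoped Classical

section defs

variable (F : Type) [Field F] [NumberField F]

/-- All monic polynomials of degree `2 g + 1` with coefficients in the ring of integers of `F`, without term
of degree `2 g`, such that all conjugates of the coefficient of `x ^ j` have absolute value at
most `B ^ (2 g + 1 - j)`. -/
def Polys (g B : ℕ) : Set ((𝓞 F)[X]) :=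
  {f | f.Monic ∧ f.natDegree = 2 * g + 1 ∧ f.coeff (2 * g) = 0 ∧
    ∀ j ≤ 2 * g, ∀ σ : F →+* ℂ, ‖σ (f.coeff j : F)‖ ≤ (B : ℝ) ^ (2 * g + 1 - j)}

variable {F}

/-- The polynomial over the extension `K` of `F`. -/
noncomputable def overK (K : Type) [Field K] [Algebra F K] (f : (𝓞 F)[X]) : K[X] :=
  (f.map (algebraMap (𝓞 F) F)).map (algebraMap F K)

/-- The equation `y ^ 2 = f(x)` is minimal: there is no prime `𝔭` such that `𝔭 ^ (2 i)` divides the coefficient
of `x ^ (2 g + 1 - i)` for all `i > 0`. -/
def IsMinimal (g : ℕ) (f : (𝓞 F)[X]) : Prop :=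
  ∀ 𝔭 : Ideal (𝓞 F), 𝔭.IsPrime → 𝔭 ≠ ⊥ → ¬ ∀ j ≤ 2 * g, f.coeff j ∈ 𝔭 ^ (2 * (2 * g + 1 - j))

/-- `f` is irreducible modulo the prime `𝔭`. -/
def IrreducibleMod (𝔭 : HeightOneSpectrum (𝓞 F)) (f : (𝓞 F)[X]) : Prop :=
  Irreducible (f.map (Ideal.Quotient.mk 𝔭.asIdeal))

/-- The conditions on the twist: `D` is a square in the completions at the primes over `2`, it is positive at
the real places, and every prime divisor of `D` is in `T` or `f` is irreducible modulo it. -/
structure AllowedTwist (T : Finset (HeightOneSpectrum (𝓞 F))) (f : (𝓞 F)[X]) (D : 𝓞 F) :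
    Prop where
  ne_zero : D ≠ 0
  two : ∀ 𝔭 : HeightOneSpectrum (𝓞 F), (2 : 𝓞 F) ∈ 𝔭.asIdeal →
    IsSquare (algebraMap F (𝔭.adicCompletion F) (D : F))
  real : ∀ ρ : F →+* ℝ, 0 < ρ (D : F)
  inert : ∀ 𝔭 : HeightOneSpectrum (𝓞 F), D ∈ 𝔭.asIdeal → 𝔭 ∈ T ∨ IrreducibleMod 𝔭 f

variable (K : Type) [Field K] [NumberField K] [Algebra F K]

/-- The prime `𝔭` of `F` splits completely in `K`: for every prime `𝔓` over `𝔭` the square of `𝔓` does not divide
`𝔭` and every integer of `K` is congruent to an integer of `F` modulo `𝔓`. -/
def SplitsCompletely (𝔭 : HeightOneSpectrum (𝓞 F)) : Prop :=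
  ∀ 𝔓 : HeightOneSpectrum (𝓞 K), 𝔭.asIdeal.map (algebraMap (𝓞 F) (𝓞 K)) ≤ 𝔓.asIdeal →
    ¬ 𝔭.asIdeal.map (algebraMap (𝓞 F) (𝓞 K)) ≤ 𝔓.asIdeal ^ 2 ∧
      ∀ y : 𝓞 K, ∃ x : 𝓞 F, y - algebraMap (𝓞 F) (𝓞 K) x ∈ 𝔓.asIdeal

/-- The prime `𝔭` of `F` is ramified in `K`. -/
def Ramified (𝔭 : HeightOneSpectrum (𝓞 F)) : Prop :=
  ∃ 𝔓 : HeightOneSpectrum (𝓞 K), 𝔭.asIdeal.map (algebraMap (𝓞 F) (𝓞 K)) ≤ 𝔓.asIdeal ^ 2

/-- The conditions on the Galois extension `K / F`: the degree is a power of two, the primes over `2`, the
primes in `S` and the real places (for a Galois extension: every embedding of `F` in `ℝ` extends to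
`K`) split completely, and every ramified prime is in `T` or `f` is irreducible modulo it. -/
structure Allowed (S T : Finset (HeightOneSpectrum (𝓞 F))) (f : (𝓞 F)[X]) : Prop where
  degree : ∃ n : ℕ, Module.finrank F K = 2 ^ n
  two : ∀ 𝔭 : HeightOneSpectrum (𝓞 F), (2 : 𝓞 F) ∈ 𝔭.asIdeal → SplitsCompletely K 𝔭
  split : ∀ 𝔭 ∈ S, SplitsCompletely K 𝔭
  real : ∀ ρ : F →+* ℝ, ∃ τ : K →+* ℝ, ∀ x : F, τ (algebraMap F K x) = ρ x
  ramified : ∀ 𝔭 : HeightOneSpectrum (𝓞 F), Ramified K 𝔭 → 𝔭 ∈ T ∨ IrreducibleMod 𝔭 f

/-- The property of `f` in the theorem: over all allowed extensions `K` and for all allowed twists `D` the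
Jacobian `J_D` of `y ^ 2 = D ^ (2 g + 1) f(x / D)`, which is isomorphic to `D y ^ 2 = f(x)`, has a group `J_D(K)`
uniquely divisible by two, and the 2-primary part of its Tate-Shafarevich group over `K` is zero (finite
places and real embeddings of `K`). -/
def Uniform (S T : Finset (HeightOneSpectrum (𝓞 F))) (f : (𝓞 F)[X]) : Prop :=
  ∀ (K : Type) [Field K] [NumberField K] [Algebra F K] [IsGalois F K], Allowed K S T f →
    ∀ D : 𝓞 F, AllowedTwist T f D →
      UniquelyTwoDivisible (overK K (f.scaleRoots D)) ∧
        ShaTwoTrivialReal (overK K (f.scaleRoots D)) (𝓞 K)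

end defs

theorem ht_iff {F : Type} [Field F] [NumberField F] (g B : ℕ) (f : (𝓞 F)[X]) :
    Pool.Agent.N783.PF.Ht g B f ↔ f ∈ Polys F g B :=
  ⟨fun h => ⟨h.mon, h.deg, h.tr, h.ht⟩, fun h => ⟨h.1, h.2.1, h.2.2.1, h.2.2.2⟩⟩

theorem mem (F : Type) [Field F] [NumberField F] (g B : ℕ) : (X ^ (2 * g + 1) : (𝓞 F)[X]) ∈ Polys F g B := by
  refine ⟨monic_X_pow _, natDegree_X_pow _, ?_, fun j hj σ => ?_⟩
  · rw [coeff_X_pow, if_neg (by omega)]
  · rw [coeff_X_pow, if_neg (by omega)]
    simp

/-- For every number field `F`, every `g ≥ 1`, every finite set `T` of primes of `F` and every finite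
extension `K₀` of `F` there are a finite set `S` of primes of `F`, not over `2`, not in `T` and completely split in
`K₀`, and `c > 0` such that for all large `B` at least `c` times the number of all monic polynomials `f` of
degree `2 g + 1` over the ring of integers without term of degree `2 g` and of height at most `B` are irreducible
over `F`, minimal, and have the property: for EVERY finite Galois extension `K` of `F` of 2-power degree in
which the primes over `2`, the primes in `S` and the real places split completely and every ramified prime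
is in `T` or is a prime modulo which `f` is irreducible, and for EVERY nonzero `D` in the ring of integers which is a
local square at the primes over `2`, positive at the real places, and whose prime divisors are in `T` or
primes modulo which `f` is irreducible, the Jacobian `J_D` of `D y ^ 2 = f(x)` has a group `J_D(K)` which is uniquely
divisible by two and `Ш(J_D / K)[2 ^ ∞] = 0`. -/
theorem result (F : Type) [Field F] [NumberField F] (g : ℕ) (hg : 1 ≤ g)
    (T : Finset (HeightOneSpectrum (𝓞 F))) (K₀ : Type) [Field K₀] [NumberField K₀] [Algebra F K₀] :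
    ∃ S : Finset (HeightOneSpectrum (𝓞 F)),
      (∀ 𝔭 ∈ S, (2 : 𝓞 F) ∉ 𝔭.asIdeal ∧ 𝔭 ∉ T ∧ SplitsCompletely K₀ 𝔭) ∧
      ∃ c : ℝ, 0 < c ∧ ∀ᶠ B : ℕ in atTop,
        (Polys F g B).Finite ∧ 0 < (Polys F g B).ncard ∧
        c * ((Polys F g B).ncard : ℝ) ≤
          (({f ∈ Polys F g B | Irreducible (f.map (algebraMap (𝓞 F) F)) ∧ IsMinimal g f ∧
            Uniform S T f}).ncard : ℝ) := by
  obtain ⟨S, hS, c, hc, B₀, h⟩ := Run7.h23.Gd.mainD g F hg T K₀
  refine ⟨S, fun v hv => ?_, c, hc, ?_⟩
  · obtain ⟨h1, h2, h3⟩ := hS v hv
    exact ⟨h1, h2, Run7.h23.Gn.spI_of_sp h3⟩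
  filter_upwards [eventually_ge_atTop B₀] with B hB
  obtain ⟨hfin, hle⟩ := h B hB
  have hset : {f : (𝓞 F)[X] | Pool.Agent.N783.PF.Ht g B f} = Polys F g B := by
    ext f
    exact ht_iff g B f
  rw [hset] at hfin hle
  refine ⟨hfin, (Set.ncard_pos hfin).2 ⟨_, mem F g B⟩, hle.trans ?_⟩
  have h3 : {f : (𝓞 F)[X] | Pool.Agent.N783.PF.Ht g B f ∧
      Irreducible (Pool.Agent.N783.PF.fF f) ∧ Pool.Agent.N783.PF.Min g f ∧
      Run7.h23.Gd.GoodPD S T f ∧ ∀ v : HeightOneSpectrum (𝓞 F), (2 : 𝓞 F) ∈ v.asIdeal →
        Run7.h23.Lo.RegAt v g f} ⊆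
      {f ∈ Polys F g B | Irreducible (f.map (algebraMap (𝓞 F) F)) ∧ IsMinimal g f ∧
        Uniform S T f} := by
    rintro f ⟨hf, hi, hm, hg', -⟩
    refine ⟨(ht_iff g B f).1 hf, hi, hm, ?_⟩
    intro K _ _ _ _ hK D hD
    obtain ⟨n, hn⟩ := hK.degree
    obtain ⟨h4, h5⟩ := hg' D hD.ne_zero hD.inert hD.two hD.real K n hn
      (fun v hv => Run7.h23.Gn.sp_of_spI (hK.two v hv))
      (fun v hv => Run7.h23.Gn.sp_of_spI (hK.split v hv)) hK.real
      (fun v hv => hK.ramified v (by
        by_contra hc
        exact hv (Run7.h23.Gn.un_of_not hc)))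
    have hmD : (f.scaleRoots D).Monic := (monic_scaleRoots_iff D).2 hf.mon
    have hdD : (f.scaleRoots D).natDegree = 2 * g + 1 := by rw [natDegree_scaleRoots, hf.deg]
    have h6 := Pool.Agent.N783.PF.jac (f := (f.scaleRoots D).map (algebraMap (𝓞 F) (𝓞 K)))
      (hmD.map _) (by rw [hmD.natDegree_map, hdD]; exact odd_two_mul_add_one g) h4 h5
    rw [Run7.h23.Gn.fF_map] at h6
    exact h6
  have h4 := Set.ncard_le_ncard h3 (hfin.subset fun f hf => hf.1)
  exact_mod_cast h4

end Pool.Agent.Results.MP_a43263_nt.AllTwistsAllTwoExtensions
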