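import Mathlib
import Pool.Agent.Run7.h318.SF.F2

/-!
# The average of `(2 ^ rank * #Ш[2]) ^ δ` in polynomial families of elliptic curves with full 2-torsion

`Ш(W)` is the Tate-Shafarevich group of the elliptic curve `W` over `ℚ`, defined in
`Pool/Agent/W262/SH/Stm.lean` with continuous cocycles of the absolute Galois group of `ℚ` which are
locally trivial at all the primes and at infinity; `Ш(W)[2] = {c : Sha W // c + c = 0}`.

Let `A`, `B` be polynomials with integer coefficients such that `A`, `B` and `A - B` are squarefree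
over `ℚ`, and let `E_t : y² = x (x - A(t)) (x - B(t))`. For `c = 0, 1, 2` let `n c` be the number
of the irreducible factors over `ℚ` of the `c`-th of the polynomials `A`, `B`, `A - B` which do not
divide the two others (the places of multiplicative reduction of the family), and let `m c` be the
number of those at which the reduction is split over the residue field. If `0 < δ ≤ 1` and
`2 ^ δ * (n c + m c) ≤ 2 * (n (c + 1) + n (c + 2))` for the three values of `c`, then for every
`ε > 0` the average of `(2 ^ rank E_t(ℚ) * #Ш(E_t)[2]) ^ δ` over the integers `t` of an interval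
`(x, x + H]` is bounded, uniformly in `x` and `H ≥ |x| ^ ε`.

The counting of the local conditions is the one of helper69 (`Pool/Agent/Run7/h69`, used there for
the rank); the descent on the Tate-Shafarevich group is the one of `Pool/Agent/Run7/h318/SH`.
-/

set_option autoImplicit false

namespace Pool.Agent.Results.MP_a43263_nt.OneParameterFamilies

open Finset Polynomial UniqueFactorizationMonoid

open scoped Classical

/-- the elements of the Tate-Shafarevich group of `W` over `ℚ` killed by two -/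
abbrev ShaTwo (W : WeierstrassCurve ℚ) : Type := {c : Pool.Agent.W262.SH.Sha W // c + c = 0}

/-- `2 ^ rank * #Ш[2]` -/
noncomputable def size (W : WeierstrassCurve ℚ) : ℕ :=
  2 ^ Module.finrank ℤ W.toAffine.Point * Nat.card (ShaTwo W)

/-- the curve `y² = x (x - a) (x - b)` over `ℚ` -/
def E (a b : ℤ) : WeierstrassCurve ℚ := ⟨0, -((a : ℚ) + b), 0, (a : ℚ) * b, 0⟩

/-- a polynomial with integer coefficients as a polynomial over `ℚ` -/
noncomputable abbrev toQ (F : ℤ[X]) : ℚ[X] := F.map (Int.castRingHom ℚ)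

/-- the three differences of the roots `0`, `A`, `B` -/
noncomputable def diff (A B : ℤ[X]) (c : Fin 3) : ℤ[X] :=
  if c = 0 then A else if c = 1 then B else A - B

/-- the reduction at a zero of `diff A B c` is split if the value of `gam A B c` is a square -/
noncomputable def gam (A B : ℤ[X]) (c : Fin 3) : ℤ[X] :=
  if c = 0 then -B else if c = 1 then -A else A

/-- the monic irreducible factors over `ℚ` of `diff A B c` that do not divide the two others -/
noncomputable def mult (A B : ℤ[X]) (c : Fin 3) : Finset ℚ[X] :=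
  (normalizedFactors (toQ (diff A B c))).toFinset.filter (fun q => ¬ q ∣ toQ (diff A B (c + 1)))

/-- their number -/
noncomputable def n (A B : ℤ[X]) (c : Fin 3) : ℕ := (mult A B c).card

/-- the number of those modulo which `gam A B c` is a square -/
noncomputable def m (A B : ℤ[X]) (c : Fin 3) : ℕ :=
  ((mult A B c).filter (fun q => ∃ s : ℚ[X], q ∣ toQ (gam A B c) - s ^ 2)).card

/-- **Theorem.** `Ш[2]` is finite for the nonsingular members of the family
`y² = x (x - A(t)) (x - B(t))`, and the average of `(2 ^ rank * #Ш[2]) ^ δ` is bounded, uniformly in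
short intervals. -/
theorem result (A B : ℤ[X]) :
    (∀ t : ℤ, A.eval t ≠ 0 → B.eval t ≠ 0 → A.eval t ≠ B.eval t →
      Finite (ShaTwo (E (A.eval t) (B.eval t)))) ∧
    ((∀ c, Squarefree (toQ (diff A B c))) → ∀ δ : ℝ, 0 < δ → δ ≤ 1 →
      (∀ c : Fin 3, (2 : ℝ) ^ δ * (n A B c + m A B c) ≤
        2 * (n A B (c + 1) + n A B (c + 2))) →
      ∀ ε : ℝ, 0 < ε → ∃ C : ℝ, ∀ (x : ℤ) (H : ℕ), 1 ≤ H → |(x : ℝ)| ^ ε ≤ H →
        ∑ t ∈ (Ioc x (x + H)).filter
            (fun t => A.eval t ≠ 0 ∧ B.eval t ≠ 0 ∧ A.eval t ≠ B.eval t),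
          (size (E (A.eval t) (B.eval t)) : ℝ) ^ δ ≤ C * H) := by
  refine ⟨fun t h1 h2 h3 => Run7.h318.SH.fin_EAB h1 h2 h3, fun hsq δ hδ hδ1 hnm ε hε => ?_⟩
  set L : ℕ := ⌈1 / ε⌉₊ with hL
  have hnum : ∀ (c : Fin 3) (S : ℚ[X] → Prop) (s : Finset ℚ[X]),
      (∀ q, q ∈ s ↔ q ∈ mult A B c ∧ S q) → Run7.h69.FZ.num A B c S = s.card := by
    intro c S s hs
    unfold Run7.h69.FZ.num
    congr 1
    ext q
    rw [hs, mem_filter]
    unfold mult
    rw [mem_filter, and_assoc]
    rfl
  have hn : ∀ c, Run7.h69.FZ.num A B c (fun _ => True) = n A B c := fun c =>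
    hnum c _ _ fun q => by simp
  have hm : ∀ c, Run7.h69.FZ.num A B c
      (fun q => ∃ s : ℚ[X], q ∣ Run7.h69.PK.qq (Run7.h69.FZ.gam A B c) - s ^ 2) = m A B c :=
    fun c => hnum c _ _ fun q => by
      rw [mem_filter]
      rfl
  obtain ⟨C, hC⟩ := Run7.h318.SF.FZ.main A B hsq hδ hδ1
    (fun c => by rw [hn, hn, hn, hm]; exact hnm c) L
  refine ⟨C, fun x H hH hx => ?_⟩
  have hHr : (1 : ℝ) ≤ H := by exact_mod_cast hH
  have h1 : x.natAbs ≤ H ^ L := by
    have h2 : |(x : ℝ)| ≤ (H : ℝ) ^ (L : ℝ) := by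
      calc |(x : ℝ)| = (|(x : ℝ)| ^ ε) ^ (1 / ε) := by
            rw [← Real.rpow_mul (abs_nonneg _), mul_one_div_cancel hε.ne', Real.rpow_one]
        _ ≤ (H : ℝ) ^ (1 / ε) := Real.rpow_le_rpow (by positivity) hx (by positivity)
        _ ≤ (H : ℝ) ^ (L : ℝ) := Real.rpow_le_rpow_of_exponent_le hHr (Nat.le_ceil _)
    rw [Real.rpow_natCast] at h2
    have h3 : ((x.natAbs : ℕ) : ℝ) = |(x : ℝ)| := by
      rw [Nat.cast_natAbs, Int.cast_abs]
    have h4 : ((x.natAbs : ℕ) : ℝ) ≤ ((H ^ L : ℕ) : ℝ) := by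
      rw [h3]
      push_cast
      exact h2
    exact_mod_cast h4
  exact hC x H hH h1

end Pool.Agent.Results.MP_a43263_nt.OneParameterFamilies
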