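import Mathlib
import Pool.Agent.Run7.h318.SF.P1

/-!
# The moments of `2 ^ rank * #Ш[2]` for products of polynomial twists of elliptic curves

`Ш(W)` is the Tate-Shafarevich group of the elliptic curve `W` over `ℚ`, defined in
`Pool/Agent/W262/SH/Stm.lean` with continuous cocycles of the absolute Galois group of `ℚ` which are
locally trivial at all the primes and at infinity. For the abelian variety `A = W 0 × ... × W (r - 1)`
the group of rational points is the product of the groups of rational points of the `W i`, and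
`Ш(A)` is the product of the groups `Ш(W i)`.

Let `E i : y² = x (x - a i) (x - b i)`, `i < r`, be elliptic curves over `ℚ` with full rational
2-torsion, and `f i` polynomials with integer coefficients. For an integer `t` with all
`f i (t) ≠ 0` let `A t` be the product of the quadratic twists of the `E i` by `f i (t)`. Then all the
moments of `2 ^ (rank A t(ℚ)) * #Ш(A t)[2]` are bounded on average over the integers `t` of an
interval `(x, x + H]`, uniformly in `x` and `H ≥ |x| ^ ε`.

The counting of the local conditions is the one of helper69 (`Pool/Agent/Run7/h69`, used there for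
the rank of one twist); the descent on the Tate-Shafarevich group is the one of
`Pool/Agent/Run7/h318/SH`.
-/

set_option autoImplicit false

namespace Pool.Agent.Results.MP_a43263_nt.ProductsOfPolynomialTwists

open Finset Polynomial

open scoped Classical

/-- the curve `y² = x (x - a) (x - b)` over `ℚ` -/
def E (a b : ℤ) : WeierstrassCurve ℚ := ⟨0, -((a : ℚ) + b), 0, (a : ℚ) * b, 0⟩

variable {r : ℕ}

/-- the rational points of the abelian variety `W 0 × ... × W (r - 1)` -/
abbrev Points (W : Fin r → WeierstrassCurve ℚ) : Type := ∀ i, (W i).toAffine.Point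

/-- the Tate-Shafarevich group of the abelian variety `W 0 × ... × W (r - 1)` -/
abbrev Sha (W : Fin r → WeierstrassCurve ℚ) : Type := ∀ i, Pool.Agent.W262.SH.Sha (W i)

/-- its elements killed by two -/
abbrev ShaTwo (W : Fin r → WeierstrassCurve ℚ) : Type := {c : Sha W // c + c = 0}

/-- `2 ^ rank * #Ш[2]` of the abelian variety `W 0 × ... × W (r - 1)` -/
noncomputable def size (W : Fin r → WeierstrassCurve ℚ) : ℕ :=
  2 ^ Module.finrank ℤ (Points W) * Nat.card (ShaTwo W)

/-- `A t`: the product of the twists of the curves `E (a i) (b i)` by `f i (t)` -/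
noncomputable def A (a b : Fin r → ℤ) (f : Fin r → ℤ[X]) (t : ℤ) (i : Fin r) : WeierstrassCurve ℚ :=
  E (a i * (f i).eval t) (b i * (f i).eval t)

lemma size_le (a b : Fin r → ℤ) (f : Fin r → ℤ[X]) (t : ℤ) :
    (size (A a b f t) : ℝ) ≤ ∏ i, Run7.h318.SF.TM.rr (a i) (b i) ((f i).eval t) := by
  have h1 : size (A a b f t) ≤ ∏ i, Run7.h318.SH.RR (a i * (f i).eval t) (b i * (f i).eval t) := by
    unfold size
    rw [Run7.h318.SF.PR.card_pi_two]
    calc 2 ^ Module.finrank ℤ (Points (A a b f t)) *
          ∏ i, Nat.card {c : Pool.Agent.W262.SH.Sha (A a b f t i) // c + c = 0}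
        ≤ 2 ^ (∑ i, Module.finrank ℤ (A a b f t i).toAffine.Point) *
          ∏ i, Nat.card {c : Pool.Agent.W262.SH.Sha (A a b f t i) // c + c = 0} :=
          Nat.mul_le_mul_right _ (Nat.pow_le_pow_right (by norm_num)
            (Run7.h318.SF.PR.finrank_pi_le r _))
      _ = ∏ i, (2 ^ Module.finrank ℤ (A a b f t i).toAffine.Point *
          Nat.card {c : Pool.Agent.W262.SH.Sha (A a b f t i) // c + c = 0}) := by
          rw [prod_mul_distrib, prod_pow_eq_pow_sum]
      _ = _ := rfl
  calc (size (A a b f t) : ℝ)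
      ≤ ((∏ i, Run7.h318.SH.RR (a i * (f i).eval t) (b i * (f i).eval t) : ℕ) : ℝ) := by
        exact_mod_cast h1
    _ = _ := by
        rw [Nat.cast_prod]
        rfl

/-- **Theorem.** The groups `Ш(A t)[2]` are finite, and all the moments of
`2 ^ (rank A t(ℚ)) * #Ш(A t)[2]` are bounded on average, uniformly in short intervals. -/
theorem result (r : ℕ) (a b : Fin r → ℤ) (ha : ∀ i, a i ≠ 0) (hb : ∀ i, b i ≠ 0)
    (hab : ∀ i, a i ≠ b i) (f : Fin r → ℤ[X]) :
    (∀ t : ℤ, (∀ i, (f i).eval t ≠ 0) → Finite (ShaTwo (A a b f t))) ∧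
    ∀ (k : ℕ) (ε : ℝ), 0 < ε → ∃ C : ℝ, ∀ (x : ℤ) (H : ℕ), 1 ≤ H → |(x : ℝ)| ^ ε ≤ H →
      ∑ t ∈ (Ioc x (x + H)).filter (fun t => ∀ i, (f i).eval t ≠ 0),
        (size (A a b f t) : ℝ) ^ k ≤ C * H := by
  refine ⟨fun t ht => ?_, fun k ε hε => ?_⟩
  · have h : ∀ i, Finite {c : Pool.Agent.W262.SH.Sha (A a b f t i) // c + c = 0} := fun i =>
      Run7.h318.SH.fin_EAB (mul_ne_zero (ha i) (ht i)) (mul_ne_zero (hb i) (ht i))
        (fun h => hab i (mul_right_cancel₀ (ht i) h))
    exact Finite.of_injective (β := ∀ i, {c : Pool.Agent.W262.SH.Sha (A a b f t i) // c + c = 0})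
      (fun c i => ⟨c.1 i, congrFun c.2 i⟩) fun c c' hcc => Subtype.ext (funext fun i =>
        congrArg Subtype.val (congrFun hcc i))
  · set M : ℕ := ⌈1 / ε⌉₊ with hM
    obtain ⟨C, hC⟩ := Run7.h318.SF.PR.prods a b ha hb hab f k M
    refine ⟨C, fun x H hH hx => ?_⟩
    have hHr : (1 : ℝ) ≤ H := by exact_mod_cast hH
    have h1 : x.natAbs ≤ H ^ M := by
      have h2 : |(x : ℝ)| ≤ (H : ℝ) ^ (M : ℝ) := by
        calc |(x : ℝ)| = (|(x : ℝ)| ^ ε) ^ (1 / ε) := by
              rw [← Real.rpow_mul (abs_nonneg _), mul_one_div_cancel hε.ne', Real.rpow_one]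
          _ ≤ (H : ℝ) ^ (1 / ε) := Real.rpow_le_rpow (by positivity) hx (by positivity)
          _ ≤ (H : ℝ) ^ (M : ℝ) := Real.rpow_le_rpow_of_exponent_le hHr (Nat.le_ceil _)
      rw [Real.rpow_natCast] at h2
      have h3 : ((x.natAbs : ℕ) : ℝ) = |(x : ℝ)| := by
        rw [Nat.cast_natAbs, Int.cast_abs]
      have h4 : ((x.natAbs : ℕ) : ℝ) ≤ ((H ^ M : ℕ) : ℝ) := by
        rw [h3]
        push_cast
        exact h2
      exact_mod_cast h4
    exact (sum_le_sum fun t _ => pow_le_pow_left₀ (Nat.cast_nonneg _) (size_le a b f t) k).trans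
      (hC x H hH h1)

end Pool.Agent.Results.MP_a43263_nt.ProductsOfPolynomialTwists
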