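import Mathlib
import Pool.Agent.Run7.h289.D18.Fn
import Pool.Agent.Run7.h289.D18.Jw
import Pool.Agent.Run7.h289.MO.Av
import Pool.Agent.N916.GB.Num
import Pool.Agent.Run7.h424.N15.RF15
import Pool.Agent.Run7.h424.N15.RF21
import Pool.Agent.Run7.h424.N15.RF24
import Pool.Agent.Run7.h843.GS.Grp
import Pool.Agent.Run7.h843.GS.Res

/-!
# Tate-Shafarevich groups of products of quadratic twists of elliptic curves: exact laws

The abelian varieties over `ℚ` are the products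
`A_m = ∏_{i < M} ∏_{t ∈ F i} (E_t^{(w a_i m)})^{e i t}`, of any dimension, of quadratic twists by `± a_i m` of
elliptic curves `E_t = E_{u,v} : y² = x (x + u²) (x + v²)`; these are (up to quadratic twists) ALL the elliptic
curves `y² = x (x + α) (x + β)` over `ℚ` with `α β` a square (full rational 2-torsion and a cyclic subgroup of
order four stable under the Galois group); they are excluded in the theorem of Smith on the 2-power
Selmer groups of quadratic twists. Here `a_0, ..., a_{M-1}` are different multipliers (squarefree, `1`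
modulo `4`), the `F i` are any finite sets of pairs `(u, v)` with a sign `w`, the exponents `e i t ≥ 1` are
arbitrary, and `m` runs over the squarefree numbers for which all the twists are admissible (explicit
congruence conditions; `m` may be restricted to any class `b` modulo `N` prime to `N`). Since `H¹` commutes
with finite products, the Tate-Shafarevich group of `A_m` is the product of those of the factors.

* For every `m` of the class let `2^(k_i + 1)` be the number of the factorizations `b c` of the squarefree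
  part of `a_i m` with `b`, `c` squares modulo the primes of each other. Then
  `2^(rank A_m(ℚ)) * #Ш(A_m)[2] ≤ ∏_i 4^(k_i d_i)`, `d_i` the dimension of the part with the multiplier `a_i`,
  and `A_m(ℚ)` is finite with `Ш(A_m)[2^∞] = 0` if and only if all `k_i` are zero.
* The law of the vector `k` is exactly the product law `∏_i g (k_i)` (total variation): for every set `A`
  of vectors exactly the proportion `∑_{k ∈ A} ∏_i g (k_i)` of the class has its vector in `A`. So exactly the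
  proportion `η^M`, `η = 0.2888...`, has `A_m(ℚ)` finite and `Ш(A_m)[2^∞] = 0`.
* The average of `2^(rank A_m(ℚ)) * #Ш(A_m)[2]` is bounded: its upper limit is at most `∏_i G (2 d_i)`, `G r` the
  number of the subspaces of `F_2^r`. As the exponents `e i t` are arbitrary, this bounds all the moments.
* If the curves are the twists by `-a_i m` of `X_0(15)`, `X_0(21)`, `X_0(24)` (`(u, v) = (3, 5), (3, 4), (1, 2)`; no
  complex multiplication), and `A_m(ℚ)` is finite with `Ш(A_m)[2^∞] = 0`, then the L-functions of all the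
  factors are entire and not zero at `1`; so the whole group `Ш(A_m)` is finite by the theorem of
  Kolyvagin (this last step is not part of the formal statement). So for exactly the proportion `η^M` of the
  class `A_m(ℚ)` is finite, `Ш(A_m)` is finite and its order is odd.
* Existence: for every pair `(u, v)` and all `M ≥ 1`, `n` there are `M` multipliers and numbers `m` admissible
  for all of them and for all the curves `E_{u^(2^i), v^(2^i)}`, `i ≤ n`, at once.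

The algebraic side and the laws for one curve: helper289 (`Pool/Agent/Run7/h289`), with helper238,
helper424, helper555, helper843; the L-functions: helper89, helper135, helper209, helper238, helper289,
helper424, helper483, helper555, helper741, helper843, helper916 (projects P15, P21, P24). See
`MP_e23604_nt.FullTorsionLaw` for the Selmer groups of the isogenies.
-/

set_option autoImplicit false

open Filter Topology

namespace Pool.Agent.Results.MP_a43263_nt.ProductsOfTwistsShaLaw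

/-- the curve `y² = x (x + α) (x + β)` over `ℚ` -/
def C (α β : ℚ) : WeierstrassCurve ℚ := { a₁ := 0, a₂ := α + β, a₃ := 0, a₄ := α * β, a₆ := 0 }

/-- `E_{u,v}^D : y² = x (x + u² D) (x + v² D)` -/
def E (u v D : ℤ) : WeierstrassCurve ℚ := C ((u : ℚ) ^ 2 * D) ((v : ℚ) ^ 2 * D)

/-- the pairs `(u, v)` -/
structure Pair (u v : ℤ) : Prop where
  coprime : IsCoprime u v
  left : u ≠ 0
  right : v ≠ 0
  ne : u ^ 2 ≠ v ^ 2

/-- `D` is admissible for `(u, v)` -/
structure Admissible (u v D : ℤ) : Prop where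
  squarefree : Squarefree D
  three : D.natAbs % 4 = 3
  atUV : ∀ p : ℕ, p.Prime → p ≠ 2 → (p : ℤ) ∣ u * v → ¬ IsSquare (D : ZMod p)
  atDiff : ∀ p : ℕ, p.Prime → p ≠ 2 → (p : ℤ) ∣ u ^ 2 - v ^ 2 → ¬ IsSquare (-(D : ZMod p))
  atTwoPos : 0 < D →
    (u * v % 2 = 1 ∧ (D % 8 = 3 ∨ (u ^ 2 - v ^ 2) % 32 = 16)) ∨ u * v % 4 = 2
  atTwoNeg : D < 0 → (u * v % 2 = 1 ∧ (u ^ 2 - v ^ 2) % 16 = 8) ∨
    (u * v % 2 = 0 ∧ (D.natAbs % 8 = 3 ∨ u * v % 8 = 4))

/-- the triples `t = (u, v, w)`: a pair `(u, v)` and a sign `w = ± 1` -/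
structure Signed (t : ℤ × ℤ × ℤ) : Prop where
  pair : Pair t.1 t.2.1
  sign : t.2.2 = 1 ∨ t.2.2 = -1

/-- the squarefree part of `a m`, for squarefree `a`, `m` -/
def part (a m : ℕ) : ℕ := a * m / Nat.gcd a m ^ 2

/-- the curve of `t = (u, v, w)` for the multiplier `a` and the number `m`: the quadratic twist by
`w a m` of `E_{u,v}` -/
def twist (t : ℤ × ℤ × ℤ) (a m : ℕ) : WeierstrassCurve ℚ := E t.1 t.2.1 (t.2.2 * part a m)

/-- The multipliers `a i`, the sets `F i` of pairs with signs, and the exponents `e i t`. -/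
structure Data {M : ℕ} (a : Fin M → ℕ) (F : Fin M → Finset (ℤ × ℤ × ℤ))
    (e : Fin M → ℤ × ℤ × ℤ → ℕ) : Prop where
  pos : 0 < M
  different : Function.Injective a
  squarefree : ∀ i, Squarefree (a i)
  one : ∀ i, a i % 4 = 1
  nonempty : ∀ i, (F i).Nonempty
  signed : ∀ i, ∀ t ∈ F i, Signed t
  prime : ∀ i, ∀ t ∈ F i, ∀ p : ℕ, p.Prime → p ≠ 2 →
    (p : ℤ) ∣ t.1 * t.2.1 * (t.1 ^ 2 - t.2.1 ^ 2) → ¬ p ∣ a i
  exponent : ∀ i, ∀ t ∈ F i, 1 ≤ e i t

/-- the class: `m` is squarefree and all the numbers are admissible -/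
def Common {M : ℕ} (a : Fin M → ℕ) (F : Fin M → Finset (ℤ × ℤ × ℤ)) (m : ℕ) : Prop :=
  Squarefree m ∧ ∀ i, ∀ t ∈ F i, Admissible t.1 t.2.1 (t.2.2 * part (a i) m)

/-- the index set of the factors of the abelian variety
`A_m = ∏_i ∏_{t ∈ F i} (twist t (a i) m)^(e i t)` -/
abbrev Factor {M : ℕ} (F : Fin M → Finset (ℤ × ℤ × ℤ)) (e : Fin M → ℤ × ℤ × ℤ → ℕ) : Type :=
  Σ i : Fin M, Σ t : {t : ℤ × ℤ × ℤ // t ∈ F i}, Fin (e i t.1)

/-- the factors of `A_m` -/
def factor {M : ℕ} (a : Fin M → ℕ) (F : Fin M → Finset (ℤ × ℤ × ℤ))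
    (e : Fin M → ℤ × ℤ × ℤ → ℕ) (m : ℕ) (j : Factor F e) : WeierstrassCurve ℚ :=
  twist j.2.1.1 (a j.1) m

/-- the group of the rational points of the abelian variety `A_m` -/
abbrev Points {M : ℕ} (a : Fin M → ℕ) (F : Fin M → Finset (ℤ × ℤ × ℤ))
    (e : Fin M → ℤ × ℤ × ℤ → ℕ) (m : ℕ) : Type :=
  ∀ j : Factor F e, (factor a F e m j).toAffine.Point

/-- the Tate-Shafarevich group of the abelian variety `A_m` (the product of those of its factors) -/
abbrev ShaOf {M : ℕ} (a : Fin M → ℕ) (F : Fin M → Finset (ℤ × ℤ × ℤ))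
    (e : Fin M → ℤ × ℤ × ℤ → ℕ) (m : ℕ) : Type :=
  ∀ j : Factor F e, Pool.Agent.TH841.NF.D.Sha (factor a F e m j)

/-- `Ш(A_m)[2]` -/
abbrev ShaTwo {M : ℕ} (a : Fin M → ℕ) (F : Fin M → Finset (ℤ × ℤ × ℤ))
    (e : Fin M → ℤ × ℤ × ℤ → ℕ) (m : ℕ) : Type :=
  {x : ShaOf a F e m // 2 • x = 0}

/-- `2^(rank A_m(ℚ)) * #Ш(A_m)[2]` -/
noncomputable def size {M : ℕ} (a : Fin M → ℕ) (F : Fin M → Finset (ℤ × ℤ × ℤ))
    (e : Fin M → ℤ × ℤ × ℤ → ℕ) (m : ℕ) : ℕ :=
  2 ^ Module.finrank ℤ (Points a F e m) * Nat.card (ShaTwo a F e m)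

/-- `A_m(ℚ)` is finite and `Ш(A_m)[2^∞] = 0` -/
def Trivial {M : ℕ} (a : Fin M → ℕ) (F : Fin M → Finset (ℤ × ℤ × ℤ))
    (e : Fin M → ℤ × ℤ × ℤ → ℕ) (m : ℕ) : Prop :=
  Finite (Points a F e m) ∧ ∀ (n : ℕ) (x : ShaOf a F e m), 2 ^ n • x = 0 → x = 0

/-- `Σ_{t ∈ F i} e i t`, the dimension of the part of `A_m` with the multiplier `a i` -/
def dim {M : ℕ} (F : Fin M → Finset (ℤ × ℤ × ℤ)) (e : Fin M → ℤ × ℤ × ℤ → ℕ) (i : Fin M) : ℕ :=
  ∑ t ∈ F i, e i t

/-- The number of the factorizations `n = b c` such that `b` is a square modulo every prime divisor of `c`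
and `c` is a square modulo every prime divisor of `b`. -/
noncomputable def Split (n : ℕ) : ℕ := Nat.card {s : ℕ × ℕ // s.1 * s.2 = n ∧
  (∀ p : ℕ, p.Prime → p ∣ s.2 → IsSquare (s.1 : ZMod p)) ∧
    ∀ p : ℕ, p.Prime → p ∣ s.1 → IsSquare (s.2 : ZMod p)}

/-- the vector `k` of the coranks of `m`: `Split (part (a i) m) = 2^(k i + 1)` -/
def Coranks {M : ℕ} (a : Fin M → ℕ) (k : Fin M → ℕ) (m : ℕ) : Prop :=
  ∀ i, Split (part (a i) m) = 2 ^ (k i + 1)

open Classical in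
/-- the `L`-function of `y² = x³ + a x + b` is entire and not zero at `1`: the incomplete Euler product
over the primes `p ∤ 2Δ` extends to an entire function `L` with `L(1) ≠ 0` -/
def NonzeroL (a b : ℤ) : Prop :=
  ∃ L : ℂ → ℂ, Differentiable ℂ L ∧ L 1 ≠ 0 ∧
    ∀ s : ℂ, (3 : ℝ) / 2 < s.re →
      HasProd
        (fun p : ℕ =>
          if p.Prime ∧ ¬ ((p : ℤ) ∣ 2 * (-4 * a ^ 3 - 27 * b ^ 2)) then
            (1 - ((p : ℂ) - (Nat.card {q : ZMod p × ZMod p //
                q.2 ^ 2 = q.1 ^ 3 + (a : ZMod p) * q.1 + (b : ZMod p)} : ℂ))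
                * (p : ℂ) ^ (-s) + (p : ℂ) ^ (1 - 2 * s))⁻¹
          else 1)
        (L s)

/-- The coefficient `a` of the equation `Y² = X³ + a X + b`, `X = 9 x + 3 A`, `Y = 27 y`, of the curve
`E_{u,v}^D : y² = x³ + A x² + B x`, `A = (u² + v²) D`, `B = u² v² D²`: `a = 81 B - 27 A²`. -/
def shortA (u v D : ℤ) : ℤ :=
  81 * (u ^ 2 * v ^ 2 * D ^ 2) - 27 * ((u ^ 2 + v ^ 2) * D) ^ 2

/-- The coefficient `b = 54 A³ - 243 A B`. -/
def shortB (u v D : ℤ) : ℤ :=
  54 * ((u ^ 2 + v ^ 2) * D) ^ 3 - 243 * ((u ^ 2 + v ^ 2) * D) * (u ^ 2 * v ^ 2 * D ^ 2)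

/-- `E_{3,5}^m`, `E_{3,4}^{-m}`, `E_{1,2}^{-m}` are the quadratic twists by `-m` of `X_0(15)`, `X_0(21)`,
`X_0(24)` -/
def Modular (t : ℤ × ℤ × ℤ) : Prop := t = (3, 5, 1) ∨ t = (3, 4, -1) ∨ t = (1, 2, -1)

/-- the number of the `m ≤ X` of the class `K` with the property `Q` -/
noncomputable def num (K Q : ℕ → Prop) (X : ℕ) : ℕ := Nat.card {m : ℕ // m ≤ X ∧ K m ∧ Q m}

/-- among the numbers of the class `K` exactly the proportion `θ` has the property `Q` -/
def Proportion (K Q : ℕ → Prop) (θ : ℝ) : Prop :=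
  Tendsto (fun X : ℕ => (num K Q X : ℝ) / (num K (fun _ => True) X : ℝ)) atTop (𝓝 θ)

open scoped Classical in
/-- the average of `f` over the numbers `m ≤ X` of the class `K` -/
noncomputable def average (K : ℕ → Prop) (f : ℕ → ℝ) (X : ℕ) : ℝ :=
  (∑ m ∈ (Finset.range (X + 1)).filter K, f m) / (((Finset.range (X + 1)).filter K).card : ℝ)

/-- the Galois numbers: the number of the subspaces of `F_2^r` -/
def G : ℕ → ℕ
  | 0 => 1
  | 1 => 2
  | (r + 2) => 2 * G (r + 1) + (2 ^ (r + 1) - 1) * G r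

/-- the constant `0.2888...` -/
noncomputable def η : ℝ := ∏' i : ℕ, (1 - (1 / 2 : ℝ) ^ (i + 1))

/-- the constants of the law -/
noncomputable def g (k : ℕ) : ℝ :=
  η / (2 ^ (k ^ 2) * (∏ i ∈ Finset.range k, (1 - (1 / 2 : ℝ) ^ (i + 1))) ^ 2)

section proof

open Pool.Agent.Run7.h289.D18

theorem pair_iff {u v : ℤ} : Pair u v ↔ Pr u v :=
  ⟨fun h => ⟨h.1, h.2, h.3, h.4⟩, fun h => ⟨h.1, h.2, h.3, h.4⟩⟩

theorem adm_iff {u v D : ℤ} : Admissible u v D ↔ Ad u v D :=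
  ⟨fun h => ⟨h.1, h.2, h.3, h.4, h.5, h.6⟩, fun h => ⟨h.1, h.2, h.3, h.4, h.5, h.6⟩⟩

theorem E_eq (u v D : ℤ) : E u v D = Ec u v D := by
  unfold E C Ec
  push_cast
  congr 1 <;> ring

theorem signed_iff {t : ℤ × ℤ × ℤ} : Signed t ↔ Tri t :=
  ⟨fun h => ⟨pair_iff.1 h.1, h.2⟩, fun h => ⟨pair_iff.2 h.1, h.2⟩⟩

theorem part_eq (a m : ℕ) : part a m = Pool.Agent.Run7.h238.J.tw a m := rfl

theorem split_eq {n : ℕ} (h : Squarefree n) : Split n = Nf n := by
  have key : ∀ b c : ℕ, b * c = n → ((∀ p : ℕ, p.Prime → p ∣ c → IsSquare (b : ZMod p)) ↔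
      ∀ p ∈ c.primeFactors, jacobiSym b p = 1) := by
    intro b c hbc
    have hc0 : c ≠ 0 := by
      rintro rfl
      rw [mul_zero] at hbc
      exact h.ne_zero hbc.symm
    have hcop : b.Coprime c := Nat.coprime_of_squarefree_mul (by rw [hbc]; exact h)
    constructor
    · intro h1 p hp
      have hpp := Nat.prime_of_mem_primeFactors hp
      have hpc := Nat.dvd_of_mem_primeFactors hp
      have : Fact p.Prime := ⟨hpp⟩
      have hb0 : ((b : ℤ) : ZMod p) ≠ 0 := by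
        intro h0
        rw [ZMod.intCast_zmod_eq_zero_iff_dvd] at h0
        have h2 : p ∣ b := by exact_mod_cast h0
        exact hpp.one_lt.ne' (Nat.dvd_one.1 (hcop ▸ Nat.dvd_gcd h2 hpc))
      rw [← jacobiSym.legendreSym.to_jacobiSym, legendreSym.eq_one_iff p hb0]
      exact_mod_cast h1 p hpp hpc
    · intro h1 p hpp hpc
      have : Fact p.Prime := ⟨hpp⟩
      have h2 := h1 p (Nat.mem_primeFactors.2 ⟨hpp, hpc, hc0⟩)
      have hb0 : ((b : ℤ) : ZMod p) ≠ 0 := by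
        intro h0
        rw [ZMod.intCast_zmod_eq_zero_iff_dvd] at h0
        have h2 : p ∣ b := by exact_mod_cast h0
        exact hpp.one_lt.ne' (Nat.dvd_one.1 (hcop ▸ Nat.dvd_gcd h2 hpc))
      rw [← jacobiSym.legendreSym.to_jacobiSym, legendreSym.eq_one_iff p hb0] at h2
      exact_mod_cast h2
  unfold Split Nf
  refine Nat.card_congr (Equiv.subtypeEquivRight fun s => ?_)
  refine and_congr_right fun hs => ?_
  rw [key s.1 s.2 hs, key s.2 s.1 (by rw [mul_comm]; exact hs)]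

theorem g_eq (k : ℕ) : g k = Run7.h843.L.gk k := by
  rw [Run7.h843.L.gk_eq]
  rfl

theorem G_eq : ∀ r : ℕ, G r = Pool.Agent.Run7.h289.MO.Ga r
  | 0 => rfl
  | 1 => rfl
  | (r + 2) => by
    show 2 * G (r + 1) + (2 ^ (r + 1) - 1) * G r = _
    rw [G_eq (r + 1), G_eq r]
    rfl

/-- the facts on one curve -/
theorem core {u v D : ℤ} (h : Pair u v) (hD : Admissible u v D) : ∃ k : ℕ,
    Nf D.natAbs = 2 ^ (k + 1) ∧ Finite {x : Pool.Agent.TH841.NF.D.Sha (E u v D) // 2 • x = 0} ∧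
    2 ^ Module.finrank ℤ (E u v D).toAffine.Point *
      Nat.card {x : Pool.Agent.TH841.NF.D.Sha (E u v D) // 2 • x = 0} ≤ 4 ^ k ∧
    ((Finite (E u v D).toAffine.Point ∧
      ∀ (n : ℕ) (x : Pool.Agent.TH841.NF.D.Sha (E u v D)), 2 ^ n • x = 0 → x = 0) ↔ k = 0) := by
  rw [E_eq]
  obtain ⟨k, h1, -, -, h4, h5, h6⟩ := corank (pair_iff.1 h) (adm_iff.1 hD)
  exact ⟨k, h1, h4, h5, h6⟩

theorem fg_inst (W : WeierstrassCurve ℚ) [inst : DecidableEq ℚ]
    (h : Module.Finite ℤ (Pool.Agent.Y682.MP W)) : Module.Finite ℤ W.toAffine.Point := by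
  have e : inst = Classical.decEq ℚ := Subsingleton.elim _ _
  subst e
  exact h

theorem fg {u v D : ℤ} (h : Pair u v) (hD : Admissible u v D) :
    Module.Finite ℤ (E u v D).toAffine.Point := by
  rw [E_eq]
  exact fg_inst _ (Pool.Agent.Y682.fg_MP (isT (pair_iff.1 h) (adm_iff.1 hD)))

theorem natAbs_sign {t : ℤ × ℤ × ℤ} (h : Signed t) (m : ℕ) : (t.2.2 * (m : ℤ)).natAbs = m := by
  rcases h.sign with e | e
  · rw [e, one_mul, Int.natAbs_natCast]
  · rw [e, neg_one_mul, Int.natAbs_neg, Int.natAbs_natCast]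

variable {M : ℕ} {a : Fin M → ℕ} {F : Fin M → Finset (ℤ × ℤ × ℤ)}
  {e : Fin M → ℤ × ℤ × ℤ → ℕ} {N b : ℕ}

theorem common_iff {m : ℕ} : Common a F m ↔ CmJ a F m :=
  and_congr_right fun _ => forall_congr' fun _ => forall_congr' fun _ => forall_congr' fun _ =>
    adm_iff

theorem Data.hyp (h : Data a F e) : Hyp a F where
  inj := h.different
  sqf := h.squarefree
  one := h.one
  tri := fun i t ht => signed_iff.1 (h.signed i t ht)
  ne := h.nonempty
  gm := h.prime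
  pos := h.pos

theorem Data.split (h : Data a F e) {m : ℕ} (hm : Common a F m) (i : Fin M) :
    Split (part (a i) m) = Nf (Pool.Agent.Run7.h238.J.tw (a i) m) := by
  rw [part_eq]
  exact split_eq (Pool.Agent.Run7.h424.J.tw_spec (h.squarefree i) hm.1).1

theorem coranks_iff (h : Data a F e) {m : ℕ} (hm : Common a F m) (k : Fin M → ℕ) :
    Coranks a k m ↔ ∀ i, Nf (Pool.Agent.Run7.h238.J.tw (a i) m) = 2 ^ (k i + 1) :=
  forall_congr' fun i => by rw [h.split hm i]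

/-- one factor, with the corank of its multiplier -/
theorem one_factor (h : Data a F e) {m : ℕ} (hm : Common a F m) {k : Fin M → ℕ}
    (hk : Coranks a k m) (i : Fin M) {t : ℤ × ℤ × ℤ} (ht : t ∈ F i) :
    Finite {x : Pool.Agent.TH841.NF.D.Sha (twist t (a i) m) // 2 • x = 0} ∧
    2 ^ Module.finrank ℤ (twist t (a i) m).toAffine.Point *
      Nat.card {x : Pool.Agent.TH841.NF.D.Sha (twist t (a i) m) // 2 • x = 0} ≤ 4 ^ k i ∧
    ((Finite (twist t (a i) m).toAffine.Point ∧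
      ∀ (n : ℕ) (x : Pool.Agent.TH841.NF.D.Sha (twist t (a i) m)), 2 ^ n • x = 0 → x = 0) ↔
        k i = 0) := by
  obtain ⟨k', h1, h2, h3, h4⟩ := core (h.signed i t ht).pair (hm.2 i t ht)
  rw [natAbs_sign (h.signed i t ht)] at h1
  have h5 := (coranks_iff h hm k).1 hk i
  have h6 : k' = k i := by
    have h7 := h1.symm.trans h5
    have h8 := Nat.pow_right_injective le_rfl h7
    omega
  rw [h6] at h3 h4
  exact ⟨h2, h3, h4⟩

theorem exists_coranks (h : Data a F e) {m : ℕ} (hm : Common a F m) :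
    ∃ k : Fin M → ℕ, Coranks a k m := by
  have h1 : ∀ i, ∃ k : ℕ, Nf (Pool.Agent.Run7.h238.J.tw (a i) m) = 2 ^ (k + 1) := by
    intro i
    obtain ⟨t, ht⟩ := h.nonempty i
    obtain ⟨k, h2, -⟩ := core (h.signed i t ht).pair (hm.2 i t ht)
    rw [natAbs_sign (h.signed i t ht)] at h2
    exact ⟨k, h2⟩
  choose k hk using h1
  exact ⟨k, (coranks_iff h hm k).2 hk⟩

theorem prod_factor (f : Fin M → ℕ) :
    ∏ j : Factor F e, f j.1 = ∏ i, f i ^ dim F e i := by
  rw [Fintype.prod_sigma]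
  refine Finset.prod_congr rfl fun i _ => ?_
  rw [Fintype.prod_sigma]
  unfold dim
  rw [← Finset.prod_pow_eq_pow_sum, ← Finset.prod_coe_sort (F i)]
  refine Finset.prod_congr rfl fun t _ => ?_
  show ∏ _y : Fin (e i t.1), f i = _
  rw [Finset.prod_const, Finset.card_univ, Fintype.card_fin]

theorem size_eq (h : Data a F e) {m : ℕ} (hm : Common a F m) :
    size a F e m = ∏ j : Factor F e, 2 ^ Module.finrank ℤ (factor a F e m j).toAffine.Point *
      Nat.card {x : Pool.Agent.TH841.NF.D.Sha (factor a F e m j) // 2 • x = 0} := by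
  have hfg : ∀ j : Factor F e, Module.Finite ℤ (factor a F e m j).toAffine.Point := fun j =>
    fg (h.signed j.1 j.2.1.1 j.2.1.2).pair (hm.2 j.1 j.2.1.1 j.2.1.2)
  unfold size ShaTwo ShaOf Points
  rw [Pool.Agent.Run7.h843.GS.finrank_pi, Pool.Agent.Run7.h843.GS.card_tors,
    ← Finset.prod_pow_eq_pow_sum, ← Finset.prod_mul_distrib]

theorem size_le (h : Data a F e) {m : ℕ} (hm : Common a F m) {k : Fin M → ℕ}
    (hk : Coranks a k m) :
    Finite (ShaTwo a F e m) ∧ size a F e m ≤ ∏ i, 4 ^ (k i * dim F e i) := by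
  have h1 := fun j : Factor F e => one_factor h hm hk j.1 j.2.1.2
  refine ⟨Pool.Agent.Run7.h843.GS.finite_tors _ _ fun j => (h1 j).1, ?_⟩
  rw [size_eq h hm]
  refine (Finset.prod_le_prod' fun j _ => (h1 j).2.1).trans (le_of_eq ?_)
  rw [prod_factor (F := F) (e := e) (fun i => 4 ^ k i)]
  exact Finset.prod_congr rfl fun i _ => (pow_mul _ _ _).symm

theorem trivial_iff (h : Data a F e) {m : ℕ} (hm : Common a F m) {k : Fin M → ℕ}
    (hk : Coranks a k m) : Trivial a F e m ↔ ∀ i, k i = 0 := by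
  have h1 := fun j : Factor F e => one_factor h hm hk j.1 j.2.1.2
  have h2 : Trivial a F e m ↔ ∀ j : Factor F e, k j.1 = 0 := by
    unfold Trivial
    rw [Pool.Agent.Run7.h843.GS.finite_pi]
    constructor
    · rintro ⟨h3, h4⟩ j
      exact (h1 j).2.2.1 ⟨h3 j, fun n => (Pool.Agent.Run7.h843.GS.tors_pi _).1 (h4 n) j⟩
    · intro h3
      exact ⟨fun j => ((h1 j).2.2.2 (h3 j)).1, fun n => (Pool.Agent.Run7.h843.GS.tors_pi _).2
        fun j => ((h1 j).2.2.2 (h3 j)).2 n⟩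
  rw [h2]
  constructor
  · intro h3 i
    obtain ⟨t, ht⟩ := h.nonempty i
    exact h3 ⟨i, ⟨t, ht⟩, ⟨0, h.exponent i t ht⟩⟩
  · exact fun h3 j => h3 j.1

theorem law_set' (h : Data a F e) (hN : 0 < N) (hbc : b.Coprime N)
    (hex : ∃ m, Common a F m ∧ m % N = b) (A : Set (Fin M → ℕ)) :
    Proportion (fun m => Common a F m ∧ m % N = b) (fun m => ∃ k ∈ A, Coranks a k m)
      (∑' k : A, ∏ i, g (k.1 i)) := by
  have h1 := law_set h.hyp hN hbc (hex.imp fun m hm => ⟨common_iff.1 hm.1, hm.2⟩) A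
  have e : (∑' k : A, ∏ i, g (k.1 i)) = ∑' k : A, ∏ i, Run7.h843.L.gk (k.1 i) :=
    tsum_congr fun k => Finset.prod_congr rfl fun i _ => g_eq _
  rw [e]
  refine Prp.congr (fun m => and_congr_left fun _ => common_iff.symm) (fun m hm => ?_) h1
  exact exists_congr fun k => and_congr_right fun _ =>
    (coranks_iff h (common_iff.2 hm.1) k).symm

theorem coranks_unique {k k' : Fin M → ℕ} {m : ℕ} (h : Coranks a k m) (h' : Coranks a k' m) :
    k = k' := by
  funext i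
  have h7 := (h i).symm.trans (h' i)
  have h8 := Nat.pow_right_injective le_rfl h7
  omega

theorem law_triv (h : Data a F e) (hN : 0 < N) (hbc : b.Coprime N)
    (hex : ∃ m, Common a F m ∧ m % N = b) :
    Proportion (fun m => Common a F m ∧ m % N = b) (Trivial a F e) (η ^ M) := by
  have e0 : η = Run7.h843.L.gk 0 := by
    rw [← g_eq]
    unfold g
    simp
  have h1 := law_set h.hyp hN hbc (hex.imp fun m hm => ⟨common_iff.1 hm.1, hm.2⟩)
    {r : Fin M → ℕ | ∀ i, r i = 0 ↔ i ∈ (Finset.univ : Finset (Fin M))}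
  rw [tsum_pat, ← e0, Finset.card_univ, Fintype.card_fin, Nat.sub_self, pow_zero, mul_one] at h1
  refine Prp.congr (fun m => and_congr_left fun _ => common_iff.symm) (fun m hm => ?_) h1
  have hC : Common a F m := common_iff.2 hm.1
  obtain ⟨k, hk⟩ := exists_coranks h hC
  rw [trivial_iff h hC hk]
  constructor
  · rintro ⟨r, hr, hr'⟩ i
    rw [coranks_unique hk ((coranks_iff h hC r).2 hr')]
    exact (hr i).2 (Finset.mem_univ i)
  · intro h2
    exact ⟨k, fun i => ⟨fun _ => Finset.mem_univ i, fun _ => h2 i⟩, (coranks_iff h hC k).1 hk⟩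

theorem low (h : Data a F e) (hN : 0 < N) (hbc : b.Coprime N)
    (hex : ∃ m, Common a F m ∧ m % N = b) :
    ∃ α : ℝ, 0 < α ∧ ∀ᶠ X : ℕ in atTop,
      α * X ≤ (num (fun m => Common a F m ∧ m % N = b) (fun _ => True) X : ℝ) := by
  obtain ⟨α, hα, h1⟩ := lowJ h.hyp hN hbc (hex.imp fun m hm => ⟨common_iff.1 hm.1, hm.2⟩)
  refine ⟨α, hα, h1.mono fun X hX => ?_⟩
  have e : num (fun m => Common a F m ∧ m % N = b) (fun _ => True) X =
      nm (fun m => CmJ a F m ∧ m % N = b) (fun _ => True) X :=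
    nm_congr (fun m => and_congr_left fun _ => common_iff) (fun _ _ => Iff.rfl) X
  rwa [e]

theorem average_of (K : ℕ → Prop) (f : ℕ → ℝ) (X : ℕ) (s : Finset ℕ)
    (hs : ∀ m, m ∈ s ↔ m ≤ X ∧ K m) : average K f X = (∑ n ∈ s, f n) / (s.card : ℝ) := by
  classical
  unfold average
  have e : (Finset.range (X + 1)).filter K = s := by
    ext m
    rw [hs, Finset.mem_filter, Finset.mem_range, Nat.lt_succ_iff]
  rw [← e]

theorem average_eq (f : ℕ → ℝ) (X : ℕ) :
    average (fun m => Common a F m ∧ m % N = b) f X =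
      (∑ n ∈ Pool.Agent.Run7.h289.MO.AX a F N b X, f n) /
        ((Pool.Agent.Run7.h289.MO.AX a F N b X).card : ℝ) := by
  refine average_of _ f X _ fun m => ?_
  rw [Pool.Agent.Run7.h289.MO.mem_AX, common_iff]

theorem sha_avg (h : Data a F e) (hN : 0 < N) (hbc : b.Coprime N)
    (hex : ∃ m, Common a F m ∧ m % N = b) (ε : ℝ) (hε : 0 < ε) :
    ∀ᶠ X : ℕ in atTop, average (fun m => Common a F m ∧ m % N = b)
      (fun m => (size a F e m : ℝ)) X ≤ ∏ i, (G (2 * dim F e i) : ℝ) + ε := by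
  have h1 := Pool.Agent.Run7.h289.MO.avg h.hyp hN hbc
    (hex.imp fun m hm => ⟨common_iff.1 hm.1, hm.2⟩) (fun i => 2 * dim F e i)
  have h2 := (tendsto_order.1 h1).2 (∏ i, (G (2 * dim F e i) : ℝ) + ε) (by
    have e1 : ∏ i, (Pool.Agent.Run7.h289.MO.Ga (2 * dim F e i) : ℝ) =
        ∏ i, (G (2 * dim F e i) : ℝ) :=
      Finset.prod_congr rfl fun i _ => by rw [G_eq]
    rw [e1]
    linarith)
  refine h2.mono fun X hX => le_trans ?_ hX.le
  rw [average_eq]
  refine div_le_div_of_nonneg_right (Finset.sum_le_sum fun m hm => ?_) (Nat.cast_nonneg _)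
  have hc0 := (Pool.Agent.Run7.h289.MO.mem_AX.1 hm).2.1
  have hc := common_iff.2 hc0
  have hk : Coranks a (Pool.Agent.Run7.h289.MO.qq a m) m :=
    (coranks_iff h hc _).2 fun i => Pool.Agent.Run7.h289.MO.qq_spec h.hyp hc0 i
  have h3 := (size_le h hc hk).2
  have h4 : (size a F e m : ℝ) ≤
      ((∏ i, 4 ^ (Pool.Agent.Run7.h289.MO.qq a m i * dim F e i) : ℕ) : ℝ) := by
    exact_mod_cast h3
  refine h4.trans (le_of_eq ?_)
  push_cast
  refine Finset.prod_congr rfl fun i _ => ?_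
  have e4 : (4 : ℝ) = 2 ^ 2 := by norm_num
  rw [e4, ← pow_mul]
  congr 1
  ring

/-- multipliers of one pair -/
theorem primes {u v : ℤ} (h : Pair u v) (n : ℕ) : ∃ a : ℕ, n < a ∧ a.Prime ∧ a % 8 = 1 ∧
    ∀ p : ℕ, p.Prime → p ≠ 2 → (p : ℤ) ∣ u * v * (u ^ 2 - v ^ 2) →
      IsSquare (a : ZMod p) ∧ ¬ p ∣ a := by
  have hne : u * v * (u ^ 2 - v ^ 2) ≠ 0 :=
    mul_ne_zero (mul_ne_zero h.left h.right) (sub_ne_zero.2 h.ne)
  have hk : 8 * (u * v * (u ^ 2 - v ^ 2)).natAbs ≠ 0 :=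
    mul_ne_zero (by norm_num) (Int.natAbs_ne_zero.2 hne)
  obtain ⟨a, ha, hn, h1⟩ := Nat.exists_prime_gt_modEq_one n hk
  refine ⟨a, hn, ha, ?_, fun p hp hp2 hd => ?_⟩
  · exact h1.of_dvd (Dvd.intro _ rfl)
  · have h2 : a ≡ 1 [MOD p] := h1.of_dvd ((Int.natCast_dvd.1 hd).mul_left 8)
    have : Fact p.Prime := ⟨hp⟩
    have h3 : (a : ZMod p) = 1 := by
      have := (ZMod.natCast_eq_natCast_iff a 1 p).2 h2
      rwa [Nat.cast_one] at this
    refine ⟨by rw [h3]; exact ⟨1, (mul_one 1).symm⟩, fun hd' => ?_⟩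
    have h4 := (ZMod.natCast_eq_zero_iff a p).2 hd'
    rw [h3] at h4
    exact one_ne_zero h4

theorem dvd_top {u v : ℤ} {i n : ℕ} (hin : i ≤ n) {p : ℤ} (hp : Prime p)
    (hd : p ∣ u ^ 2 ^ i * v ^ 2 ^ i * ((u ^ 2 ^ i) ^ 2 - (v ^ 2 ^ i) ^ 2)) :
    p ∣ u ^ 2 ^ n * v ^ 2 ^ n * ((u ^ 2 ^ n) ^ 2 - (v ^ 2 ^ n) ^ 2) := by
  have hle : (2 : ℕ) ^ i ∣ 2 ^ n := pow_dvd_pow 2 hin
  obtain ⟨r, hr⟩ := hle
  have h2n : (2 : ℕ) ^ n ≠ 0 := pow_ne_zero n (by norm_num)
  rcases hp.dvd_or_dvd hd with h1 | h1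
  · rcases hp.dvd_or_dvd h1 with h2 | h2
    · exact ((dvd_pow (hp.dvd_of_dvd_pow h2) h2n).mul_right _).mul_right _
    · exact ((dvd_pow (hp.dvd_of_dvd_pow h2) h2n).mul_left _).mul_right _
  · refine Dvd.dvd.mul_left ?_ _
    have e1 : (u ^ 2 ^ n) ^ 2 - (v ^ 2 ^ n) ^ 2 =
        ((u ^ 2 ^ i) ^ 2) ^ r - ((v ^ 2 ^ i) ^ 2) ^ r := by
      rw [hr]
      ring
    rw [e1]
    exact h1.trans (sub_dvd_pow_sub_pow _ _ r)

/-- **existence** -/
theorem exists_family {u v w : ℤ} (h : Pair u v)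
    (hw : (w = 1 ∧ u * v % 2 = 1) ∨ (w = -1 ∧ u * v % 2 = 0)) (M : ℕ) (hM : 0 < M) (n : ℕ) :
    ∃ a : Fin M → ℕ,
      Data a (fun _ => (Finset.range (n + 1)).image fun i => (u ^ 2 ^ i, v ^ 2 ^ i, w))
        (fun _ _ => 1) ∧
      ∃ m, Common a (fun _ => (Finset.range (n + 1)).image fun i => (u ^ 2 ^ i, v ^ 2 ^ i, w)) m := by
  have hw' : w = 1 ∨ w = -1 := hw.imp (fun h => h.1) (fun h => h.1)
  have hP : ∀ i, Pair (u ^ 2 ^ i) (v ^ 2 ^ i) := fun i => pair_iff.2 (pr_pow (pair_iff.1 h) i)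
  choose f hf using primes (hP n)
  set s : ℕ → ℕ := fun k => Nat.rec (f 0) (fun _ r => f r) k with hs
  have hs1 : ∀ k, s k < s (k + 1) := fun k => (hf (s k)).1
  have hmono : StrictMono s := strictMono_nat_of_lt_succ hs1
  have hsp : ∀ k, (s k).Prime ∧ s k % 8 = 1 ∧ ∀ p : ℕ, p.Prime → p ≠ 2 →
      (p : ℤ) ∣ u ^ 2 ^ n * v ^ 2 ^ n * ((u ^ 2 ^ n) ^ 2 - (v ^ 2 ^ n) ^ 2) →
      IsSquare ((s k : ℕ) : ZMod p) ∧ ¬ p ∣ s k := by
    intro k
    cases k with
    | zero => exact (hf 0).2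
    | succ k => exact (hf (s k)).2
  obtain ⟨m, -, hm⟩ := exists_adm (pair_iff.1 h) hw n
  have hmsq : Squarefree m := by
    have h0 := Int.squarefree_natAbs.2 (hm 0 (Nat.zero_le n)).sqf
    rcases hw' with e | e
    · rwa [e, one_mul, Int.natAbs_natCast] at h0
    · rwa [e, neg_one_mul, Int.natAbs_neg, Int.natAbs_natCast] at h0
  have hbad : ∀ k i, i ≤ n → ∀ p : ℕ, p.Prime → p ≠ 2 →
      (p : ℤ) ∣ u ^ 2 ^ i * v ^ 2 ^ i * ((u ^ 2 ^ i) ^ 2 - (v ^ 2 ^ i) ^ 2) →
      IsSquare ((s k : ℕ) : ZMod p) ∧ ¬ p ∣ s k := fun k i hi p hp hp2 hd =>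
    (hsp k).2.2 p hp hp2 (dvd_top hi (Nat.prime_iff_prime_int.1 hp) hd)
  refine ⟨fun i => s i, ⟨hM, fun i j hij => Fin.ext (hmono.injective hij),
    fun i => (hsp i).1.squarefree, fun i => by have := (hsp i).2.1; show s i % 4 = 1; omega,
    fun i => ⟨_, Finset.mem_image_of_mem _ (Finset.mem_range.2 (Nat.succ_pos n))⟩, ?_, ?_,
    fun _ _ _ => le_rfl⟩, m, hmsq, ?_⟩
  · intro i t ht
    obtain ⟨j, -, rfl⟩ := Finset.mem_image.1 ht
    exact ⟨hP j, hw'⟩
  · intro i t ht p hp hp2 hd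
    obtain ⟨j, hj, rfl⟩ := Finset.mem_image.1 ht
    exact (hbad i j (Nat.lt_succ_iff.1 (Finset.mem_range.1 hj)) p hp hp2 hd).2
  · intro i t ht
    obtain ⟨j, hj, rfl⟩ := Finset.mem_image.1 ht
    have hj' := Nat.lt_succ_iff.1 (Finset.mem_range.1 hj)
    rw [adm_iff, part_eq]
    exact (ad_mul hw' (hsp i).1.squarefree hmsq (hsp i).2.1
      (fun p hp hp2 hd => hbad i j hj' p hp hp2 hd)).2 (hm j hj')

theorem rfz {a b : ℤ} (h : Run7.h424.N15.RFZ a b) : NonzeroL a b := by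
  obtain ⟨L, h1, h2, h3, -⟩ := h
  exact ⟨L, h1, (h1.analyticAt 1).analyticOrderAt_eq_zero.1 h3, h2⟩

theorem nonzero {t : ℤ × ℤ × ℤ} (ht : Modular t) {n : ℕ}
    (hA : Admissible t.1 t.2.1 (t.2.2 * n)) (hn : Squarefree n) (hq : Nf n = 2) :
    NonzeroL (shortA t.1 t.2.1 (t.2.2 * n)) (shortB t.1 t.2.1 (t.2.2 * n)) := by
  have h4 : n % 4 = 3 := by
    have h5 := hA.three
    rcases ht with rfl | rfl | rfl
    · simpa using h5
    · simpa using h5
    · simpa using h5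
  have hQ : Pool.Agent.N969.P15.Qc n := (Nf_two (by omega)).1 hq
  apply rfz
  rcases ht with rfl | rfl | rfl
  · have h3 := Pool.Agent.Run7.h843.GS.mod3 (hA.atUV 3 (by norm_num) (by norm_num) (by norm_num))
    have h5 := Pool.Agent.Run7.h843.GS.mod5 (hA.atUV 5 (by norm_num) (by norm_num) (by norm_num))
    have h6 := Run7.h424.N15.rf15 hn (by simp only [one_mul] at h3 h5; omega) hQ
    have e1 : shortA 3 5 (1 * (n : ℤ)) = -12987 * (n : ℤ) ^ 2 := by unfold shortA; ring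
    have e2 : shortB 3 5 (1 * (n : ℤ)) = 263466 * (n : ℤ) ^ 3 := by unfold shortB; ring
    simp only [e1, e2]
    exact h6
  · have h3 := Pool.Agent.Run7.h843.GS.mod3 (hA.atUV 3 (by norm_num) (by norm_num) (by norm_num))
    have h7' := hA.atDiff 7 (by norm_num) (by norm_num) (by norm_num)
    have h7 := Pool.Agent.Run7.h843.GS.mod7 (D := -(-1 * (n : ℤ))) (by
      intro h; apply h7'; rw [← Int.cast_neg]; exact h)
    have h6 := Run7.h424.N15.rf21 hn (by simp only [neg_one_mul, neg_neg] at h3 h7; omega) hQ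
    have e1 : shortA 3 4 (-1 * (n : ℤ)) = -5211 * (n : ℤ) ^ 2 := by unfold shortA; ring
    have e2 : shortB 3 4 (-1 * (n : ℤ)) = 31050 * (n : ℤ) ^ 3 := by unfold shortB; ring
    simp only [e1, e2]
    exact h6
  · have h3' := hA.atDiff 3 (by norm_num) (by norm_num) (by norm_num)
    have h3 := Pool.Agent.Run7.h843.GS.mod3 (D := -(-1 * (n : ℤ))) (by
      intro h; apply h3'; rw [← Int.cast_neg]; exact h)
    have h8 := hA.atTwoNeg (by show (-1 * (n : ℤ)) < 0; omega)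
    have h8' : n % 8 = 3 := by
      rcases h8 with ⟨h9, -⟩ | ⟨-, h9 | h9⟩
      · norm_num at h9
      · have e : (-1 * (n : ℤ)).natAbs = n := by rw [neg_one_mul, Int.natAbs_neg, Int.natAbs_natCast]
        rwa [e] at h9
      · norm_num at h9
    have h6 := Run7.h424.N15.rf24 hn (by simp only [neg_one_mul, neg_neg] at h3; omega) hQ
    have e1 : shortA 1 2 (-1 * (n : ℤ)) = -351 * (n : ℤ) ^ 2 := by unfold shortA; ring
    have e2 : shortB 1 2 (-1 * (n : ℤ)) = -1890 * (n : ℤ) ^ 3 := by unfold shortB; ring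
    simp only [e1, e2]
    exact h6

theorem nonzero_of (h : Data a F e) {m : ℕ} (hm : Common a F m) (ht : Trivial a F e m)
    (i : Fin M) (t : ℤ × ℤ × ℤ) (hti : t ∈ F i) (hM : Modular t) :
    NonzeroL (shortA t.1 t.2.1 (t.2.2 * part (a i) m))
      (shortB t.1 t.2.1 (t.2.2 * part (a i) m)) := by
  obtain ⟨k, hk⟩ := exists_coranks h hm
  have h1 := (trivial_iff h hm hk).1 ht i
  have h2 := (coranks_iff h hm k).1 hk i
  rw [h1] at h2
  exact nonzero hM (hm.2 i t hti)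
    (Pool.Agent.Run7.h424.J.tw_spec (h.squarefree i) hm.1).1 h2

end proof

/-- **Tate-Shafarevich groups of products of quadratic twists: the exact laws.** -/
theorem result :
    -- the curves
    (∀ α β : ℚ, α ≠ 0 → β ≠ 0 → α ≠ β → IsSquare (α * β) →
      ∃ (u v D : ℤ) (c : ℚ), Pair u v ∧ Squarefree D ∧ c ≠ 0 ∧ α = c ^ 2 * (u ^ 2 * D) ∧
        β = c ^ 2 * (v ^ 2 * D)) ∧
    (∀ (M : ℕ) (a : Fin M → ℕ) (F : Fin M → Finset (ℤ × ℤ × ℤ)) (e : Fin M → ℤ × ℤ × ℤ → ℕ),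
      Data a F e →
      -- every member of the class
      (∀ m, Common a F m →
        (∃ k, Coranks a k m ∧ Finite (ShaTwo a F e m) ∧
          size a F e m ≤ ∏ i, 4 ^ (k i * dim F e i) ∧ (Trivial a F e m ↔ ∀ i, k i = 0)) ∧
        (Trivial a F e m → ∀ i, ∀ t ∈ F i, Modular t →
          NonzeroL (shortA t.1 t.2.1 (t.2.2 * part (a i) m))
            (shortB t.1 t.2.1 (t.2.2 * part (a i) m)))) ∧
      -- the laws
      ∀ N b : ℕ, 0 < N → b.Coprime N → (∃ m, Common a F m ∧ m % N = b) →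
        (∀ A : Set (Fin M → ℕ), Proportion (fun m => Common a F m ∧ m % N = b)
          (fun m => ∃ k ∈ A, Coranks a k m) (∑' k : A, ∏ i, g (k.1 i))) ∧
        Proportion (fun m => Common a F m ∧ m % N = b) (Trivial a F e) (η ^ M) ∧
        (∀ ε : ℝ, 0 < ε → ∀ᶠ X : ℕ in atTop, average (fun m => Common a F m ∧ m % N = b)
          (fun m => (size a F e m : ℝ)) X ≤ ∏ i, (G (2 * dim F e i) : ℝ) + ε) ∧
        ∃ α : ℝ, 0 < α ∧ ∀ᶠ X : ℕ in atTop,
          α * X ≤ (num (fun m => Common a F m ∧ m % N = b) (fun _ => True) X : ℝ)) ∧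
    -- existence
    (∀ u v w : ℤ, Pair u v → ((w = 1 ∧ u * v % 2 = 1) ∨ (w = -1 ∧ u * v % 2 = 0)) →
      ∀ M : ℕ, 0 < M → ∀ n : ℕ, ∃ a : Fin M → ℕ,
        Data a (fun _ => (Finset.range (n + 1)).image fun i => (u ^ 2 ^ i, v ^ 2 ^ i, w))
          (fun _ _ => 1) ∧
        ∃ m, Common a
          (fun _ => (Finset.range (n + 1)).image fun i => (u ^ 2 ^ i, v ^ 2 ^ i, w)) m) ∧
    HasSum g 1 ∧ 0.2887 < η ∧ η < 0.2889 := by
  refine ⟨?_, fun M a F e h => ⟨fun m hm => ⟨?_, nonzero_of h hm⟩, fun N b hN hbc hex =>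
    ⟨law_set' h hN hbc hex, law_triv h hN hbc hex, sha_avg h hN hbc hex, low h hN hbc hex⟩⟩,
    fun u v w h hw M hM n => exists_family h hw M hM n, ?_,
    Pool.Agent.N916.GB.eta_bounds.1, Pool.Agent.N916.GB.eta_bounds.2⟩
  · intro α β h1 h2 h3 h4
    obtain ⟨u, v, D, c, h5, h6, h7, h8, h9⟩ := Pool.Agent.Run7.h289.D18.classify h1 h2 h3 h4
    exact ⟨u, v, D, c, pair_iff.2 h5, h6, h7, h8, h9⟩
  · obtain ⟨k, hk⟩ := exists_coranks h hm
    exact ⟨k, hk, (size_le h hm hk).1, (size_le h hm hk).2, trivial_iff h hm hk⟩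
  · have e : g = Run7.h843.L.gk := funext g_eq
    rw [e]
    exact Pool.Agent.Run7.h843.G.gk_hasSum

end Pool.Agent.Results.MP_a43263_nt.ProductsOfTwistsShaLaw
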